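import Pool.Agent.V1180.NVf

set_option autoImplicit false
set_option linter.unusedSectionVars false

/-!
# MP_462b8b_an, Q1: the Navier-type critical biharmonic constant of a cone is the whole-space constant
-/

namespace Pool.Agent.Results.MP_462b8b_an.NavierCone

open Real MeasureTheory Filter Topology Set Laplacian SchwartzMap InnerProductSpace
open scoped SchwartzMap ContDiff
open Pool.Agent.V1180.NV

/-- Euclidean space -/
abbrev Rn (n : ℕ) : Type := EuclideanSpace ℝ (Fin n)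

/-- the critical exponent `2** = 2n/(n-4)` -/
noncomputable def pcrit (n : ℕ) : ℝ := 2 * n / (n - 4)

/-- the cone over a subset of the unit sphere -/
def Cone {n : ℕ} (S : Set (Metric.sphere (0 : Rn n) 1)) : Set (Rn n) :=
  {x | ∃ r : ℝ, 0 < r ∧ ∃ σ ∈ S, x = r • (σ : Rn n)}

/-- `∫_D |Δu|² / (∫_D |u|^{2**})^{2/2**}` -/
noncomputable def Q {n : ℕ} (D : Set (Rn n)) (u : Rn n → ℝ) : ℝ :=
  (∫ x in D, |Δ u x| ^ 2) / (∫ x in D, |u x| ^ pcrit n) ^ (2 / pcrit n)

/-- `u ∈ C²(closure of D)` (the derivatives of order `≤ 2` extend continuously from `D` to the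
closure, `u` being given by its extension), `u = 0` on the boundary, near `0` and near infinity -/
structure Navier {n : ℕ} (D : Set (Rn n)) (u : Rn n → ℝ) : Prop where
  smooth : ContDiffOn ℝ 2 u D
  deriv_ext : ∀ i : ℕ, i ≤ 2 → ∃ g : Rn n → ContinuousMultilinearMap ℝ (fun _ : Fin i => Rn n) ℝ,
    ContinuousOn g (closure D) ∧ EqOn g (iteratedFDeriv ℝ i u) D
  cont : ContinuousOn u (closure D)
  bdry : ∀ x ∈ frontier D, u x = 0
  near_zero : ∃ r : ℝ, 0 < r ∧ ∀ x ∈ D, ‖x‖ < r → u x = 0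
  near_infty : ∃ R : ℝ, ∀ x ∈ D, R < ‖x‖ → u x = 0

/-- the Navier-type constant -/
noncomputable def SNavier {n : ℕ} (D : Set (Rn n)) : ℝ :=
  sInf {q | ∃ u : Rn n → ℝ, Navier D u ∧ (∃ x ∈ D, u x ≠ 0) ∧ q = Q D u}

/-- the Dirichlet-type constant -/
noncomputable def SDirichlet {n : ℕ} (D : Set (Rn n)) : ℝ :=
  sInf {q | ∃ u : Rn n → ℝ, ContDiff ℝ 2 u ∧ HasCompactSupport u ∧ tsupport u ⊆ D ∧ (∃ x, u x ≠ 0) ∧ q = Q D u}

/-- membership in `D²(ℝⁿ)`, the completion of `C_c^∞` in the norm `‖Δu‖_2`, realised in `L^{2**}`: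
`u` is the limit in `L^{2**}` of test functions `φ k` whose Laplacians converge to `g` in `L²`;
`g` is `Δu` -/
def InD2 {n : ℕ} (u g : Rn n → ℝ) : Prop :=
  MemLp u (ENNReal.ofReal (pcrit n)) volume ∧ MemLp g 2 volume ∧
  ∃ φ : ℕ → Rn n → ℝ, (∀ k, ContDiff ℝ ∞ (φ k) ∧ HasCompactSupport (φ k)) ∧
    Tendsto (fun k => eLpNorm (φ k - u) (ENNReal.ofReal (pcrit n)) volume) atTop (𝓝 0) ∧
    Tendsto (fun k => eLpNorm (Δ (φ k) - g) 2 volume) atTop (𝓝 0)

/-- the whole-space constant `S**`: the infimum over `D²(ℝⁿ)` -/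
noncomputable def SStar (n : ℕ) : ℝ :=
  sInf {q | ∃ u g : Rn n → ℝ, InD2 u g ∧ 0 < ∫ x, |u x| ^ pcrit n ∧
    q = (∫ x, |g x| ^ 2) / (∫ x, |u x| ^ pcrit n) ^ (2 / pcrit n)}

theorem pcrit_ge {n : ℕ} (hn : 5 ≤ n) : 2 < pcrit n := by
  have h : (5:ℝ) ≤ n := by exact_mod_cast hn
  unfold pcrit
  rw [lt_div_iff₀ (by linarith)]
  linarith

theorem Q_eq {n : ℕ} (D : Set (Rn n)) (u : Rn n → ℝ) : Q D u = quot (pcrit n) D u := by
  unfold Q quot
  simp only [sq_abs]

theorem Q_nonneg {n : ℕ} (D : Set (Rn n)) (u : Rn n → ℝ) : 0 ≤ Q D u := by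
  rw [Q_eq]
  exact quot_nonneg _ _ _

theorem cone_isOpen {n : ℕ} {S : Set (Metric.sphere (0 : Rn n) 1)} (hS : IsOpen S) : IsOpen (Cone S) := by
  rw [Metric.isOpen_iff]
  obtain ⟨O, hO, rfl⟩ := isOpen_induced_iff.1 hS
  rintro x ⟨r, hr, σ, hσ, rfl⟩
  have hσ1 : ‖(σ : Rn n)‖ = 1 := by simp
  have hx0 : r • (σ : Rn n) ≠ 0 := by
    intro h
    have := congrArg norm h
    rw [norm_smul, hσ1, Real.norm_eq_abs, abs_of_pos hr, norm_zero] at this
    linarith
  have hc : ContinuousAt (fun y : Rn n => ‖y‖⁻¹ • y) (r • (σ : Rn n)) :=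
    (continuousAt_id.norm.inv₀ (by simpa using hx0)).smul continuousAt_id
  have hv : (fun y : Rn n => ‖y‖⁻¹ • y) (r • (σ : Rn n)) = σ := by
    simp only
    rw [norm_smul, hσ1, Real.norm_eq_abs, abs_of_pos hr, mul_one, smul_smul, inv_mul_cancel₀ hr.ne', one_smul]
  have h1 : ∀ᶠ y in 𝓝 (r • (σ : Rn n)), ‖y‖⁻¹ • y ∈ O ∧ y ≠ 0 := by
    refine (hc.eventually ?_).and (isOpen_ne.mem_nhds hx0)
    rw [hv]
    exact hO.mem_nhds hσ
  obtain ⟨ε, hε, hε'⟩ := Metric.eventually_nhds_iff_ball.1 h1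
  refine ⟨ε, hε, fun y hy => ?_⟩
  obtain ⟨h2, h3⟩ := hε' y hy
  have hy0 : 0 < ‖y‖ := norm_pos_iff.2 h3
  refine ⟨‖y‖, hy0, ⟨‖y‖⁻¹ • y, ?_⟩, h2, ?_⟩
  · rw [mem_sphere_zero_iff_norm, norm_smul, norm_inv, norm_norm, inv_mul_cancel₀ hy0.ne']
  · simp only
    rw [smul_smul, mul_inv_cancel₀ hy0.ne', one_smul]

theorem cone_nonempty {n : ℕ} {S : Set (Metric.sphere (0 : Rn n) 1)} (hS : S.Nonempty) : (Cone S).Nonempty := by
  obtain ⟨σ, hσ⟩ := hS
  exact ⟨σ, 1, one_pos, σ, hσ, by simp⟩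

theorem zero_notMem_cone {n : ℕ} {S : Set (Metric.sphere (0 : Rn n) 1)} : (0 : Rn n) ∉ Cone S := by
  rintro ⟨r, hr, σ, hσ, h⟩
  have hσ1 : ‖(σ : Rn n)‖ = 1 := by simp
  have := congrArg norm h
  rw [norm_smul, hσ1, Real.norm_eq_abs, abs_of_pos hr, norm_zero] at this
  linarith

/-- the inequality for a wide class of functions on an open set -/
theorem navier_ineq {n : ℕ} (hn : 5 ≤ n) {D : Set (Rn n)} (hD : IsOpen D) {u : Rn n → ℝ} (hu : ContDiffOn ℝ 2 u D)
    (hΔ : ∃ g : Rn n → ContinuousMultilinearMap ℝ (fun _ : Fin 2 => Rn n) ℝ,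
      ContinuousOn g (closure D) ∧ EqOn g (iteratedFDeriv ℝ 2 u) D)
    (hc : ContinuousOn u (closure D)) (hb : ∀ x ∈ frontier D, u x = 0) (hi : ∃ R : ℝ, ∀ x ∈ D, R < ‖x‖ → u x = 0) :
    IntegrableOn (fun x => |u x| ^ pcrit n) D ∧
      Sst (Rn n) (pcrit n) * (∫ x in D, |u x| ^ pcrit n) ^ (2 / pcrit n) ≤ ∫ x in D, |Δ u x| ^ 2 := by
  have hp := pcrit_ge hn
  have hp0 : 0 < pcrit n := by linarith
  obtain ⟨R, hR⟩ := hi
  have hcomp : IsCompact (closure D ∩ Metric.closedBall 0 R) := (isCompact_closedBall 0 R).inter_left isClosed_closure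
  have hDcl : closure D = D ∪ frontier D := by
    rw [hD.frontier_eq]
    ext x
    simp only [mem_union, Set.mem_sdiff]
    constructor
    · intro h
      by_cases hx : x ∈ D
      · exact Or.inl hx
      · exact Or.inr ⟨h, hx⟩
    · rintro (h | h)
      · exact subset_closure h
      · exact h.1
  have hK : ∀ ε > 0, IsCompact {x | x ∈ D ∧ ε ≤ |u x|} := by
    intro ε hε
    have e : {x | x ∈ D ∧ ε ≤ |u x|} = (closure D ∩ Metric.closedBall 0 R) ∩ (fun x => |u x|) ⁻¹' Ici ε := by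
      ext x
      simp only [mem_ofPred_eq, mem_inter_iff, mem_preimage, mem_Ici, mem_closedBall_zero_iff]
      constructor
      · rintro ⟨h1, h2⟩
        refine ⟨⟨subset_closure h1, ?_⟩, h2⟩
        by_contra hcon
        push Not at hcon
        rw [hR x h1 hcon, abs_zero] at h2
        linarith
      · rintro ⟨⟨h1, h2⟩, h3⟩
        refine ⟨?_, h3⟩
        rw [hDcl] at h1
        rcases h1 with h1 | h1
        · exact h1
        · rw [hb x h1, abs_zero] at h3
          linarith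
    rw [e]
    have hcl : IsClosed ((closure D ∩ Metric.closedBall 0 R) ∩ (fun x => |u x|) ⁻¹' Ici ε) :=
      ((hc.mono inter_subset_left).abs).preimage_isClosed_of_isClosed hcomp.isClosed isClosed_Ici
    exact hcomp.of_isClosed_subset hcl inter_subset_left
  have hfin : volume (Metric.closedBall (0 : Rn n) R) < ⊤ := (isCompact_closedBall 0 R).measure_lt_top
  have hind : Integrable ((Metric.closedBall (0 : Rn n) R).indicator (fun _ => (1:ℝ))) volume := by
    rw [integrable_indicator_iff measurableSet_closedBall]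
    exact integrableOn_const hfin.ne
  -- integrability of |u|^p
  have hup : IntegrableOn (fun x => |u x| ^ pcrit n) D := by
    obtain ⟨M, hM⟩ := hcomp.exists_bound_of_continuousOn (hc.mono inter_subset_left)
    refine Integrable.mono' (hind.const_mul (max M 0 ^ pcrit n)).integrableOn ?_ ?_
    · apply ContinuousOn.aestronglyMeasurable _ hD.measurableSet
      exact hu.continuousOn.abs.rpow_const (fun x _ => Or.inr hp0.le)
    · filter_upwards [ae_restrict_mem hD.measurableSet] with x hx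
      rw [Real.norm_eq_abs, abs_of_nonneg (rpow_nonneg (abs_nonneg _) _)]
      by_cases hxR : ‖x‖ ≤ R
      · rw [indicator_of_mem (by simpa using hxR), mul_one]
        apply rpow_le_rpow (abs_nonneg _) _ hp0.le
        exact (hM x ⟨subset_closure hx, by simpa using hxR⟩).trans (le_max_left _ _)
      · push Not at hxR
        rw [hR x hx hxR, abs_zero, zero_rpow hp0.ne', indicator_of_notMem (by simpa using hxR), mul_zero]
  have hI : IntegrableOn (fun x => Δ u x ^ 2) D := by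
    obtain ⟨g, hg1, hg2⟩ := hΔ
    obtain ⟨M, hM⟩ := hcomp.exists_bound_of_continuousOn (hg1.mono inter_subset_left)
    refine Integrable.mono' (hind.const_mul ((n * max M 0) ^ 2)).integrableOn ?_ ?_
    · apply ContinuousOn.aestronglyMeasurable _ hD.measurableSet
      exact (lap_continuousOn hD hu).pow 2
    · filter_upwards [ae_restrict_mem hD.measurableSet] with x hx
      rw [Real.norm_eq_abs, abs_of_nonneg (sq_nonneg _)]
      by_cases hxR : ‖x‖ ≤ R
      · rw [indicator_of_mem (by simpa using hxR), mul_one]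
        have h1 := abs_lap_le u x
        have h2 := hM x ⟨subset_closure hx, by simpa using hxR⟩
        rw [hg2 hx] at h2
        rw [finrank_euclideanSpace_fin] at h1
        have h3 : |Δ u x| ≤ n * max M 0 :=
          h1.trans (mul_le_mul_of_nonneg_left (h2.trans (le_max_left _ _)) (Nat.cast_nonneg n))
        rw [← sq_abs]
        exact pow_le_pow_left₀ (abs_nonneg _) h3 2
      · push Not at hxR
        have h1 : u =ᶠ[𝓝 x] fun _ => 0 := by
          filter_upwards [hD.mem_nhds hx, continuous_norm.continuousAt.eventually (lt_mem_nhds hxR)] with y hy1 hy2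
          exact hR y hy1 hy2
        rw [(laplacian_congr_nhds h1).eq_of_nhds]
        have h2 : Δ (fun _ : Rn n => (0:ℝ)) = 0 := laplacian_const
        rw [h2, indicator_of_notMem (by simpa using hxR), mul_zero]
        simp
  refine ⟨hup, ?_⟩
  have := main_ineq (by linarith : (1:ℝ) ≤ pcrit n) hD hu hK hI hup
  simpa only [sq_abs] using this

/-- positivity of the denominator -/
theorem denom_pos {n : ℕ} {D : Set (Rn n)} (hD : IsOpen D) {u : Rn n → ℝ} (hu : ContinuousOn u D) {p : ℝ}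
    (hp : 0 < p) (hi : IntegrableOn (fun x => |u x| ^ p) D) (hne : ∃ x ∈ D, u x ≠ 0) : 0 < ∫ x in D, |u x| ^ p := by
  rw [setIntegral_pos_iff_support_of_nonneg_ae (Filter.Eventually.of_forall fun x => rpow_nonneg (abs_nonneg _) _) hi]
  obtain ⟨x, hx, hux⟩ := hne
  have h1 : IsOpen (D ∩ u ⁻¹' {0}ᶜ) := hu.isOpen_inter_preimage hD isOpen_compl_singleton
  have h2 : 0 < volume (D ∩ u ⁻¹' {0}ᶜ) := h1.measure_pos volume ⟨x, hx, by simpa using hux⟩
  refine h2.trans_le (measure_mono ?_)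
  rintro y ⟨hy1, hy2⟩
  refine ⟨?_, hy1⟩
  rw [Function.mem_support]
  exact (rpow_pos_of_pos (abs_pos.2 (by simpa using hy2)) _).ne'

theorem navier_ge {n : ℕ} (hn : 5 ≤ n) {D : Set (Rn n)} (hD : IsOpen D) {u : Rn n → ℝ} (hu : Navier D u)
    (hne : ∃ x ∈ D, u x ≠ 0) : Sst (Rn n) (pcrit n) ≤ Q D u := by
  have hp := pcrit_ge hn
  obtain ⟨h1, h2⟩ := navier_ineq hn hD hu.smooth (hu.deriv_ext 2 le_rfl) hu.cont hu.bdry hu.near_infty
  have h3 := denom_pos hD hu.smooth.continuousOn (by linarith) h1 hne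
  unfold Q
  rw [le_div_iff₀ (rpow_pos_of_pos h3 _)]
  exact h2

/-- compactly supported functions in the open set belong to the Navier class -/
theorem navier_of_compact {n : ℕ} {D : Set (Rn n)} (hD : IsOpen D) (h0 : (0 : Rn n) ∉ D) {u : Rn n → ℝ}
    (h1 : ContDiff ℝ 2 u) (h2 : HasCompactSupport u) (h3 : tsupport u ⊆ D) : Navier D u where
  smooth := h1.contDiffOn
  deriv_ext := fun i hi => ⟨iteratedFDeriv ℝ i u, (h1.continuous_iteratedFDeriv (by exact_mod_cast hi)).continuousOn,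
    fun x _ => rfl⟩
  cont := h1.continuous.continuousOn
  bdry := by
    intro x hx
    rw [hD.frontier_eq] at hx
    exact image_eq_zero_of_notMem_tsupport fun h => hx.2 (h3 h)
  near_zero := by
    have h4 : (tsupport u)ᶜ ∈ 𝓝 (0 : Rn n) := (isClosed_tsupport u).isOpen_compl.mem_nhds fun h => h0 (h3 h)
    obtain ⟨r, hr, hr'⟩ := Metric.mem_nhds_iff.1 h4
    refine ⟨r, hr, fun x _ hx => image_eq_zero_of_notMem_tsupport (hr' (by simpa using hx))⟩
  near_infty := by
    obtain ⟨R, hR⟩ := h2.isCompact.isBounded.subset_closedBall (0 : Rn n)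
    refine ⟨R, fun x _ hx => image_eq_zero_of_notMem_tsupport fun h => ?_⟩
    have := hR h
    rw [mem_closedBall_zero_iff] at this
    linarith

theorem exists_test (n : ℕ) : ∃ φ : Rn n → ℝ, ContDiff ℝ ∞ φ ∧ HasCompactSupport φ ∧ φ ≠ 0 := by
  let η : ContDiffBump (0 : Rn n) := ⟨1, 2, one_pos, one_lt_two⟩
  refine ⟨η, η.contDiff, η.hasCompactSupport, fun h => ?_⟩
  have h1 : η 0 = 1 := η.one_of_mem_closedBall (Metric.mem_closedBall_self η.rIn_pos.le)
  rw [h] at h1
  simp at h1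

theorem sst_nonempty (n : ℕ) : {q | ∃ φ : Rn n → ℝ, ContDiff ℝ ∞ φ ∧ HasCompactSupport φ ∧ φ ≠ 0 ∧ q = quot (pcrit n) univ φ}.Nonempty := by
  obtain ⟨φ, h1, h2, h3⟩ := exists_test n
  exact ⟨_, φ, h1, h2, h3, rfl⟩

theorem norm_sq_toLp {n : ℕ} {p : ℝ} (hp : 1 ≤ p) {f : Rn n → ℝ} (hf : MemLp f (ENNReal.ofReal p) volume) :
    ‖hf.toLp f‖ ^ 2 = (∫ x, |f x| ^ p) ^ (2 / p) := by
  have hp0 : 0 < p := by linarith
  have hP0 : ENNReal.ofReal p ≠ 0 := by simpa using hp0
  rw [Lp.norm_toLp, hf.eLpNorm_eq_integral_rpow_norm hP0 ENNReal.ofReal_ne_top, ENNReal.toReal_ofReal hp0.le]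
  simp only [Real.norm_eq_abs]
  have h0 : 0 ≤ ∫ x, |f x| ^ p := integral_nonneg fun x => rpow_nonneg (abs_nonneg _) _
  rw [ENNReal.toReal_ofReal (rpow_nonneg h0 _), ← rpow_natCast, ← rpow_mul h0]
  congr 1
  push_cast
  field_simp

theorem norm_tendsto {n : ℕ} {p : ℝ} (hp : 1 ≤ p) {f : ℕ → Rn n → ℝ} {u : Rn n → ℝ} (hf : ∀ k, MemLp (f k) (ENNReal.ofReal p) volume)
    (hu : MemLp u (ENNReal.ofReal p) volume) (h : Tendsto (fun k => eLpNorm (f k - u) (ENNReal.ofReal p) volume) atTop (𝓝 0)) :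
    Tendsto (fun k => (∫ x, |f k x| ^ p) ^ (2 / p)) atTop (𝓝 ((∫ x, |u x| ^ p) ^ (2 / p))) := by
  have : Fact (1 ≤ ENNReal.ofReal p) := ⟨by rw [ENNReal.one_le_ofReal]; exact hp⟩
  have h1 := (Lp.tendsto_Lp_iff_tendsto_eLpNorm'' f hf u hu).2 h
  have h2 := (h1.norm).pow 2
  rw [norm_sq_toLp hp hu] at h2
  refine h2.congr fun k => ?_
  exact norm_sq_toLp hp (hf k)

/-- the D² inequality -/
theorem d2_ineq {n : ℕ} (hn : 5 ≤ n) {u g : Rn n → ℝ} (h : InD2 u g) :
    Sst (Rn n) (pcrit n) * (∫ x, |u x| ^ pcrit n) ^ (2 / pcrit n) ≤ ∫ x, |g x| ^ 2 := by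
  have hp := pcrit_ge hn
  have hp0 : 0 < pcrit n := by linarith
  obtain ⟨hu, hg, φ, hφ, h1, h2⟩ := h
  have hφp : ∀ k, MemLp (φ k) (ENNReal.ofReal (pcrit n)) volume := fun k => (hφ k).1.continuous.memLp_of_hasCompactSupport (hφ k).2
  have hlc : ∀ k, Continuous (Δ (φ k)) := fun k => by
    rw [← continuousOn_univ]
    exact lap_continuousOn isOpen_univ ((hφ k).1.of_le (WithTop.coe_le_coe.2 le_top)).contDiffOn
  have hlcs : ∀ k, HasCompactSupport (Δ (φ k)) := fun k =>
    HasCompactSupport.intro (hφ k).2 fun x hx => lap_zero_of_notMem_tsupport hx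
  have e2 : ENNReal.ofReal 2 = 2 := by simp
  have hlp : ∀ k, MemLp (Δ (φ k)) (ENNReal.ofReal 2) volume := fun k => (hlc k).memLp_of_hasCompactSupport (hlcs k)
  have hg' : MemLp g (ENNReal.ofReal 2) volume := by simpa using hg
  have h2' : Tendsto (fun k => eLpNorm (Δ (φ k) - g) (ENNReal.ofReal 2) volume) atTop (𝓝 0) := by simpa using h2
  have t1 := norm_tendsto (by linarith) hφp hu h1
  have t2 := norm_tendsto one_le_two hlp hg' h2'
  have hk : ∀ k, Sst (Rn n) (pcrit n) * (∫ x, |φ k x| ^ pcrit n) ^ (2 / pcrit n) ≤ (∫ x, |Δ (φ k) x| ^ (2:ℝ)) ^ ((2:ℝ) / 2) := by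
    intro k
    have := Sst_test hp0 (hφ k).1 (hφ k).2
    rw [div_self two_ne_zero, rpow_one]
    simp only [rpow_two, sq_abs]
    exact this
  have h3 := le_of_tendsto_of_tendsto' (t1.const_mul (Sst (Rn n) (pcrit n))) t2 hk
  rw [div_self two_ne_zero, rpow_one] at h3
  simpa only [rpow_two] using h3

/-- test functions belong to `D²` -/
theorem inD2_test {n : ℕ} {φ : Rn n → ℝ} (h1 : ContDiff ℝ ∞ φ) (h2 : HasCompactSupport φ) : InD2 φ (Δ φ) := by
  have hlc : Continuous (Δ φ) := by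
    rw [← continuousOn_univ]
    exact lap_continuousOn isOpen_univ (h1.of_le (WithTop.coe_le_coe.2 le_top)).contDiffOn
  have hlcs : HasCompactSupport (Δ φ) := HasCompactSupport.intro h2 fun x hx => lap_zero_of_notMem_tsupport hx
  refine ⟨h1.continuous.memLp_of_hasCompactSupport h2, hlc.memLp_of_hasCompactSupport hlcs, fun _ => φ,
    fun _ => ⟨h1, h2⟩, ?_, ?_⟩
  · simp
  · simp

/-- the whole-space constant is the infimum over test functions -/
theorem SStar_eq {n : ℕ} (hn : 5 ≤ n) : SStar n = Sst (Rn n) (pcrit n) := by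
  have hp := pcrit_ge hn
  have hp0 : 0 < pcrit n := by linarith
  have hmem : ∀ φ : Rn n → ℝ, ContDiff ℝ ∞ φ → HasCompactSupport φ → φ ≠ 0 →
      quot (pcrit n) univ φ ∈ {q | ∃ u g : Rn n → ℝ, InD2 u g ∧ 0 < ∫ x, |u x| ^ pcrit n ∧
        q = (∫ x, |g x| ^ 2) / (∫ x, |u x| ^ pcrit n) ^ (2 / pcrit n)} := by
    intro φ h1 h2 h3
    refine ⟨φ, Δ φ, inD2_test h1 h2, ?_, ?_⟩
    · have hne : ∃ x ∈ (univ : Set (Rn n)), φ x ≠ 0 := by
        by_contra hcon
        push Not at hcon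
        exact h3 (funext fun x => hcon x (mem_univ x))
      have hi : IntegrableOn (fun x => |φ x| ^ pcrit n) univ := by
        have h4 : MemLp φ (ENNReal.ofReal (pcrit n)) volume := h1.continuous.memLp_of_hasCompactSupport h2
        have h5 := h4.integrable_norm_rpow (by simpa using hp0) ENNReal.ofReal_ne_top
        rw [ENNReal.toReal_ofReal hp0.le] at h5
        rw [integrableOn_univ]
        simpa [Real.norm_eq_abs] using h5
      have := denom_pos isOpen_univ h1.continuous.continuousOn hp0 hi hne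
      rwa [setIntegral_univ] at this
    · unfold quot
      simp only [setIntegral_univ, sq_abs]
  apply le_antisymm
  · apply le_csInf (sst_nonempty n)
    rintro q ⟨φ, h1, h2, h3, rfl⟩
    apply csInf_le
    · refine ⟨0, ?_⟩
      rintro q ⟨u, g, _, _, rfl⟩
      exact div_nonneg (integral_nonneg fun x => sq_nonneg _)
        (rpow_nonneg (integral_nonneg fun x => rpow_nonneg (abs_nonneg _) _) _)
    · exact hmem φ h1 h2 h3
  · obtain ⟨φ, h1, h2, h3⟩ := exists_test n
    apply le_csInf ⟨_, hmem φ h1 h2 h3⟩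
    rintro q ⟨u, g, h, hpos, rfl⟩
    rw [le_div_iff₀ (rpow_pos_of_pos hpos _)]
    exact d2_ineq hn h

/-- **MP_462b8b_an, Q1.**  For every `n ≥ 5` and every nonempty relatively open subset `S` of the
unit sphere (in particular every `C²` domain `S` different from the sphere) the Navier-type constant of
the cone over `S` equals `S**`, and so does the Dirichlet-type constant.  More generally, the
inequality `S** (∫_D |u|^{2**})^{2/2**} ≤ ∫_D |Δu|²` holds for every open set `D` and every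
`u ∈ C²(closure D)` of bounded support which vanishes on the boundary of `D`. -/
theorem result (n : ℕ) (hn : 5 ≤ n) :
    (∀ S : Set (Metric.sphere (0 : Rn n) 1), IsOpen S → S.Nonempty →
      SNavier (Cone S) = SStar n ∧ SDirichlet (Cone S) = SStar n) ∧
    (∀ D : Set (Rn n), IsOpen D → ∀ u : Rn n → ℝ, ContDiffOn ℝ 2 u D →
      (∃ g : Rn n → ContinuousMultilinearMap ℝ (fun _ : Fin 2 => Rn n) ℝ,
        ContinuousOn g (closure D) ∧ EqOn g (iteratedFDeriv ℝ 2 u) D) →
      ContinuousOn u (closure D) → (∀ x ∈ frontier D, u x = 0) → (∃ R : ℝ, ∀ x ∈ D, R < ‖x‖ → u x = 0) →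
      SStar n * (∫ x in D, |u x| ^ pcrit n) ^ (2 / pcrit n) ≤ ∫ x in D, |Δ u x| ^ 2) := by
  have hp := pcrit_ge hn
  refine ⟨?_, ?_⟩
  · intro S hS hSne
    have hD := cone_isOpen hS
    have hDne := cone_nonempty hSne
    rw [SStar_eq hn]
    have hscale : ∀ φ : Rn n → ℝ, ContDiff ℝ ∞ φ → HasCompactSupport φ → φ ≠ 0 →
        ∃ u : Rn n → ℝ, ContDiff ℝ ∞ u ∧ HasCompactSupport u ∧ tsupport u ⊆ Cone S ∧ u ≠ 0 ∧
          quot (pcrit n) (Cone S) u = quot (pcrit n) univ φ := by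
      intro φ h1 h2 h3
      refine scaled_copy ?_ ?_ hD hDne h1 h2 h3
      · rw [finrank_euclideanSpace_fin]; omega
      · rw [finrank_euclideanSpace_fin]; rfl
    have hx : ∀ {u : Rn n → ℝ}, tsupport u ⊆ Cone S → (∃ x, u x ≠ 0) → ∃ x ∈ Cone S, u x ≠ 0 := by
      rintro u h ⟨x, hx⟩
      exact ⟨x, h (subset_tsupport _ hx), hx⟩
    have hx' : ∀ {u : Rn n → ℝ}, u ≠ 0 → ∃ x, u x ≠ 0 := by
      intro u h
      by_contra hcon
      push Not at hcon
      exact h (funext hcon)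
    constructor
    · apply le_antisymm
      · apply le_csInf (sst_nonempty n)
        rintro q ⟨φ, h1, h2, h3, rfl⟩
        obtain ⟨u, k1, k2, k3, k4, k5⟩ := hscale φ h1 h2 h3
        rw [← k5, ← Q_eq]
        apply csInf_le
        · refine ⟨0, ?_⟩
          rintro q ⟨u, _, _, rfl⟩
          exact Q_nonneg _ _
        · exact ⟨u, navier_of_compact hD zero_notMem_cone (k1.of_le (WithTop.coe_le_coe.2 le_top)) k2 k3,
            hx k3 (hx' k4), rfl⟩
      · obtain ⟨φ, h1, h2, h3⟩ := exists_test n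
        obtain ⟨u, k1, k2, k3, k4, k5⟩ := hscale φ h1 h2 h3
        apply le_csInf
        · exact ⟨_, u, navier_of_compact hD zero_notMem_cone (k1.of_le (WithTop.coe_le_coe.2 le_top)) k2 k3,
            hx k3 (hx' k4), rfl⟩
        · rintro q ⟨v, hv, hvne, rfl⟩
          exact navier_ge hn hD hv hvne
    · apply le_antisymm
      · apply le_csInf (sst_nonempty n)
        rintro q ⟨φ, h1, h2, h3, rfl⟩
        obtain ⟨u, k1, k2, k3, k4, k5⟩ := hscale φ h1 h2 h3
        rw [← k5, ← Q_eq]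
        apply csInf_le
        · refine ⟨0, ?_⟩
          rintro q ⟨u, _, _, _, _, rfl⟩
          exact Q_nonneg _ _
        · exact ⟨u, k1.of_le (WithTop.coe_le_coe.2 le_top), k2, k3, hx' k4, rfl⟩
      · obtain ⟨φ, h1, h2, h3⟩ := exists_test n
        obtain ⟨u, k1, k2, k3, k4, k5⟩ := hscale φ h1 h2 h3
        apply le_csInf
        · exact ⟨_, u, k1.of_le (WithTop.coe_le_coe.2 le_top), k2, k3, hx' k4, rfl⟩
        · rintro q ⟨v, hv1, hv2, hv3, hv4, rfl⟩
          exact navier_ge hn hD (navier_of_compact hD zero_notMem_cone hv1 hv2 hv3) (hx hv3 hv4)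
  · intro D hD u h1 h2 h3 h4 h5
    rw [SStar_eq hn]
    exact (navier_ineq hn hD h1 h2 h3 h4 h5).2

end Pool.Agent.Results.MP_462b8b_an.NavierCone
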